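import Pool.Agent.Helper16_XQ.StmtD
import Pool.Agent.Helper35_AEU.Inv

/-! XQ: module ITE, germs of the torn quadruples -/

set_option autoImplicit false

namespace Pool.Agent.XQ.H72

open MeasureTheory Complex Filter Topology ProbabilityTheory Pool.Agent.H16Iso Pool.Agent.H62T
open Pool.Agent.H16F (Sublin ind)
open Pool.Agent.AEU Pool.Agent.AEU.H35

lemma measurable_ip (u : ℂ) : Measurable fun x : ℂ => ip u x := by
  unfold ip
  exact (Complex.measurable_re.const_mul _).add (Complex.measurable_im.const_mul _)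

lemma measurable_Ar {α : Type*} [MeasurableSpace α] (M E : Finset HP) (f : α → ℂ → ℝ)
    (hf : ∀ u, Measurable fun x => f x u) : Measurable fun x => Ar M E (f x) := by
  have hA : MeasurableSet {p : α × ℂ | (∀ s ∈ M, s.2 < ip s.1 p.2 + f p.1 s.1) ∧
      ∀ s ∈ E, ip s.1 p.2 + f p.1 s.1 < s.2} := by
    have h1 : ∀ s : HP, Measurable fun p : α × ℂ => ip s.1 p.2 + f p.1 s.1 := fun s =>
      ((measurable_ip s.1).comp measurable_snd).add ((hf s.1).comp measurable_fst)
    have e : {p : α × ℂ | (∀ s ∈ M, s.2 < ip s.1 p.2 + f p.1 s.1) ∧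
        ∀ s ∈ E, ip s.1 p.2 + f p.1 s.1 < s.2}
        = (⋂ s ∈ M, {p : α × ℂ | s.2 < ip s.1 p.2 + f p.1 s.1}) ∩
          ⋂ s ∈ E, {p : α × ℂ | ip s.1 p.2 + f p.1 s.1 < s.2} := by
      ext p
      simp only [Set.mem_ofPred_eq, Set.mem_inter_iff, Set.mem_iInter]
    rw [e]
    exact (Finset.measurableSet_biInter _ fun s _ => measurableSet_lt measurable_const (h1 s)).inter
      (Finset.measurableSet_biInter _ fun s _ => measurableSet_lt (h1 s) measurable_const)
  exact (measurable_measure_prodMk_left hA (ν := (volume : Measure ℂ))).ennreal_toReal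

lemma measurableSet_Ar (M E : Finset HP) (h : ℂ → ℝ) :
    MeasurableSet {x : ℂ | (∀ s ∈ M, s.2 < ip s.1 x + h s.1) ∧
      ∀ s ∈ E, ip s.1 x + h s.1 < s.2} := by
  have h1 : ∀ s : HP, Measurable fun x : ℂ => ip s.1 x + h s.1 := fun s =>
    (measurable_ip s.1).add measurable_const
  have e : {x : ℂ | (∀ s ∈ M, s.2 < ip s.1 x + h s.1) ∧ ∀ s ∈ E, ip s.1 x + h s.1 < s.2}
      = (⋂ s ∈ M, {x : ℂ | s.2 < ip s.1 x + h s.1}) ∩
        ⋂ s ∈ E, {x : ℂ | ip s.1 x + h s.1 < s.2} := by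
    ext p
    simp only [Set.mem_ofPred_eq, Set.mem_inter_iff, Set.mem_iInter]
  rw [e]
  exact (Finset.measurableSet_biInter _ fun s _ => measurableSet_lt measurable_const (h1 s)).inter
    (Finset.measurableSet_biInter _ fun s _ => measurableSet_lt (h1 s) measurable_const)

open Classical in
/-- invariance of the area -/
lemma Ar_mv (M E : Finset HP) (g : Iso2) (h : ℂ → ℝ) :
    Ar (M.image (mv g)) (E.image (mv g)) (m0 g h) = Ar M E h := by
  unfold Ar
  congr 1
  have hmp : MeasurePreserving (fun x : ℂ => g.linearIsometryEquiv.symm (x - g 0))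
      (volume : Measure ℂ) volume :=
    (g.linearIsometryEquiv.symm.measurePreserving).comp (measurePreserving_sub_right volume (g 0))
  have h1 := hmp.measure_preimage (measurableSet_Ar M E h).nullMeasurableSet
  rw [← h1]
  congr 1
  have key : ∀ (s : HP) (x : ℂ), ip (mv g s).1 x + m0 g h (mv g s).1 - (mv g s).2
      = ip s.1 (g.linearIsometryEquiv.symm (x - g 0)) + h s.1 - s.2 := by
    intro s x
    unfold mv m0
    simp only
    rw [ip_iso', ip_iso', LinearIsometryEquiv.symm_apply_apply, map_sub]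
    unfold ip
    simp only [Complex.sub_re, Complex.sub_im]
    ring
  ext x
  simp only [Set.mem_ofPred_eq, Set.mem_preimage, Finset.forall_mem_image]
  constructor
  · rintro ⟨k1, k2⟩
    refine ⟨fun s hs' => ?_, fun s hs' => ?_⟩
    · have := key s x; have := k1 hs'; linarith
    · have := key s x; have := k2 hs'; linarith
  · rintro ⟨k1, k2⟩
    refine ⟨fun s hs' => ?_, fun s hs' => ?_⟩
    · have := key s x; have := k1 s hs'; linarith
    · have := key s x; have := k2 s hs'; linarith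

open Classical in
/-- invariance of the expectation -/
lemma EAr_mv (M E : Finset HP) (g : Iso2) (t : ℝ) :
    EAr (M.image (mv g)) (E.image (mv g)) t = EAr M E t := by
  obtain ⟨G, hG, hGω⟩ := law_iso g.linearIsometryEquiv.symm
  have hm : Measurable fun ω : Sp => Ar (M.image (mv g)) (E.image (mv g))
      (fun u => Real.sqrt t * hs ω u) :=
    measurable_Ar _ _ (fun (ω : Sp) u => Real.sqrt t * hs ω u) fun u => (momS.1 u).const_mul _
  unfold EAr
  conv_lhs => rw [← hG.map_eq]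
  rw [integral_map hG.measurable.aemeasurable hm.aestronglyMeasurable]
  refine integral_congr_ae (Eventually.of_forall fun ω => ?_)
  simp only
  have e : (fun u => Real.sqrt t * hs (G ω) u) = m0 g fun u => Real.sqrt t * hs ω u := by
    funext u
    rw [hGω]
    rfl
  rw [e, Ar_mv]

/-- four different elements -/
lemma card4_ne {α : Type*} [DecidableEq α] {a b c d : α}
    (h : ({a, b, c, d} : Finset α).card = 4) :
    a ≠ b ∧ a ≠ c ∧ a ≠ d ∧ b ≠ c ∧ b ≠ d ∧ c ≠ d := by
  have h3 : ∀ x y z : α, ({x, y, z} : Finset α).card ≤ 3 := fun x y z => Finset.card_le_three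
  refine ⟨?_, ?_, ?_, ?_, ?_, ?_⟩ <;> rintro rfl
  · have e : ({a, a, c, d} : Finset α) = {a, c, d} := by simp
    rw [e] at h; have := h3 a c d; omega
  · have e : ({a, b, a, d} : Finset α) = {a, b, d} := by
      ext x; simp only [Finset.mem_insert, Finset.mem_singleton]; tauto
    rw [e] at h; have := h3 a b d; omega
  · have e : ({a, b, c, a} : Finset α) = {a, b, c} := by
      ext x; simp only [Finset.mem_insert, Finset.mem_singleton]; tauto
    rw [e] at h; have := h3 a b c; omega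
  · have e : ({a, b, b, d} : Finset α) = {a, b, d} := by
      ext x; simp only [Finset.mem_insert, Finset.mem_singleton]; tauto
    rw [e] at h; have := h3 a b d; omega
  · have e : ({a, b, c, b} : Finset α) = {a, b, c} := by
      ext x; simp only [Finset.mem_insert, Finset.mem_singleton]; tauto
    rw [e] at h; have := h3 a b c; omega
  · have e : ({a, b, c, c} : Finset α) = {a, b, c} := by
      ext x; simp only [Finset.mem_insert, Finset.mem_singleton]; tauto
    rw [e] at h; have := h3 a b c; omega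

lemma sd4 {α : Type*} [DecidableEq α] {a b c d : α} (n1 : a ≠ b) (n4 : b ≠ c) (n5 : b ≠ d) :
    ({a, b, c, d} : Finset α) \ {b} = {a, c, d} := by
  ext x
  simp only [Finset.mem_sdiff, Finset.mem_insert, Finset.mem_singleton]
  constructor
  · tauto
  · rintro (rfl | rfl | rfl)
    · exact ⟨Or.inl rfl, n1⟩
    · exact ⟨Or.inr (Or.inr (Or.inl rfl)), n4.symm⟩
    · exact ⟨Or.inr (Or.inr (Or.inr rfl)), n5.symm⟩

open Classical in
lemma ce_un (η1 η2 ζ1 ζ2 : ℝ) (a b a' b' : HP) :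
    ({a, b, a', b'} : Finset HP) = (cM η1 η2 a b ∪ cM ζ1 ζ2 a' b') ∪
      (cE η1 η2 a b ∪ cE ζ1 ζ2 a' b') := by
  ext x
  unfold cE cM
  split_ifs <;>
    simp only [Finset.mem_insert, Finset.mem_singleton, Finset.mem_union,
      Finset.notMem_empty, or_false, false_or] <;> tauto

open Classical in
lemma ce_dj (η1 η2 ζ1 ζ2 : ℝ) {a b a' b' : HP} (n1 : a ≠ b) (n2 : a ≠ a') (n3 : a ≠ b')
    (n4 : b ≠ a') (n5 : b ≠ b') (n6 : a' ≠ b') :
    Disjoint (cM η1 η2 a b ∪ cM ζ1 ζ2 a' b') (cE η1 η2 a b ∪ cE ζ1 ζ2 a' b') := by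
  unfold cE cM
  split_ifs <;>
    simp [n1, n2, n3, n4, n5, n6, n1.symm, n2.symm, n3.symm, n4.symm, n5.symm, n6.symm]

/-- the sides which have to be left are the remaining ones -/
lemma Mp_eq {F : Finset HP} {c : HP → ℝ} (hne : ∀ s ∈ F, c s ≠ 0) : Mp F c = F \ Mm F c := by
  classical
  ext s
  unfold Mp Mm
  simp only [Finset.mem_filter, Finset.mem_sdiff, not_and, not_lt]
  constructor
  · rintro ⟨h1, h2⟩
    exact ⟨h1, fun _ => h2.le⟩
  · rintro ⟨h1, h2⟩
    exact ⟨h1, lt_of_le_of_ne (h2 h1) (hne s h1).symm⟩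

open Classical in
lemma image_Mp {F : Finset HP} {c : HP → ℝ} (hne : ∀ s ∈ F, c s ≠ 0) (g : Iso2) :
    (Mp F c).image (mv g) = F.image (mv g) \ (Mm F c).image (mv g) := by
  rw [Mp_eq hne, Finset.image_sdiff_of_injOn (mv_inj g).injOn]
  unfold Mm
  exact Finset.filter_subset _ _

open Classical in
lemma card_Mm (F : Finset HP) (c : HP → ℝ) (g : Iso2) :
    (Mm F c).card = ((Mm F c).image (mv g)).card :=
  (Finset.card_image_of_injective _ (mv_inj g)).symm

/-- module ITE -/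
theorem itE : IteStatement := by
  classical
  intro hE2 hE1 h3 h4 X F K L c hL hT
  have hcard : ∀ g : Iso2, (F.image (mv g)).card = 4 := fun g => by
    rw [Finset.card_image_of_injective _ (mv_inj g), hT.card]
  refine ⟨?_, ?_, ?_⟩
  · rintro α θ γ ⟨g, η1, η2, δ1, δ2, ρ, e1, e2, e12, d1, d1', d2, d2', dd, dl, dg, r0, hF, hor, hLe,
      rfl, rfl, rfl⟩ hn
    have hp := Real.pi_pos
    have h5 := hcard g
    rw [hF] at h5
    obtain ⟨n1, n2, n3, n4, n5, n6⟩ := card4_ne h5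
    have hF' := image_Mp hT.ne g
    rw [hF] at hF'
    refine ⟨⟨by dsimp only; linarith, by dsimp only; linarith, e2, by dsimp only; linarith,
      by dsimp only; linarith, ?_, hn⟩, ?_⟩
    · dsimp only
      rcases hor with ⟨k1, k2, -⟩ | ⟨k1, -⟩
      · left; exact ⟨k2, by linarith⟩
      · right; exact ⟨by linarith, dg⟩
    · rcases hor with ⟨k1, k2, k3⟩ | ⟨k1, k3⟩
      · have h6 := hE2 η1 θ δ1 δ2 ρ e1 k1 e2 k2 d1 d1' d2 d2' dd dl r0
        have h7 : (fun t => EAr (Mp F c) (Mm F c) t)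
            = EAr {lnU η1, lnD θ, lnN δ1 ρ, lnN δ2 ρ} ∅ := by
          funext t
          rw [← EAr_mv (Mp F c) (Mm F c) g t, hF', k3, Finset.image_empty, Finset.sdiff_empty]
        have h8 : EAr (Mp F c) (Mm F c) = EAr {lnU η1, lnD θ, lnN δ1 ρ, lnN δ2 ρ} ∅ := h7
        rw [h8, hLe, k3]
        refine small_congr h6 (Eventually.of_forall fun κ => ?_)
        simp only [Finset.card_empty, pow_zero, one_mul]
      · have h6 := hE1 η1 θ δ1 δ2 ρ k1 e2 e12 d1 d1' d2 d2' dd dg r0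
        have h9 : ({lnU η1, lnD θ, lnN δ1 ρ, lnN δ2 ρ} : Finset HP) \ {lnD θ}
            = {lnU η1, lnN δ1 ρ, lnN δ2 ρ} := sd4 n1 n4 n5
        have h8 : EAr (Mp F c) (Mm F c) = EAr {lnU η1, lnN δ1 ρ, lnN δ2 ρ} {lnD θ} := by
          funext t
          rw [← EAr_mv (Mp F c) (Mm F c) g t, hF', k3, h9]
        have h10 : (Mm F c).card = 1 := by rw [card_Mm F c g, k3, Finset.card_singleton]
        rw [h8, hLe, h10]
        refine small_congr h6 (Eventually.of_forall fun κ => ?_)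
        ring
  · rintro ⟨g, η1, η2, ζ1, ζ2, d, e1, e2, z1, z2, e3, e4, z3, z4, e5, e6, z5, z6, d0, hLe, hF, hE⟩
    have h5 := hcard g
    rw [hF] at h5
    obtain ⟨n1, n2, n3, n4, n5, n6⟩ := card4_ne h5
    have hF' := image_Mp hT.ne g
    rw [hF, hE] at hF'
    have h6 := h3 η1 η2 ζ1 ζ2 d e1 e2 z1 z2 e3 e4 z3 z4 e5 e6 z5 z6 d0
    have h9 : ({lnU η1, lnD η2, lnN (Real.pi / 2 - ζ1) d, lnN (-(Real.pi / 2 - ζ2)) d} :
        Finset HP) \ (cE η1 η2 (lnU η1) (lnD η2) ∪
          cE ζ1 ζ2 (lnN (Real.pi / 2 - ζ1) d) (lnN (-(Real.pi / 2 - ζ2)) d))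
        = cM η1 η2 (lnU η1) (lnD η2) ∪
          cM ζ1 ζ2 (lnN (Real.pi / 2 - ζ1) d) (lnN (-(Real.pi / 2 - ζ2)) d) := by
      rw [ce_un η1 η2 ζ1 ζ2]
      exact Finset.union_sdiff_cancel_right (ce_dj η1 η2 ζ1 ζ2 n1 n2 n3 n4 n5 n6)
    have h8 : EAr (Mp F c) (Mm F c) = EAr (cM η1 η2 (lnU η1) (lnD η2) ∪
          cM ζ1 ζ2 (lnN (Real.pi / 2 - ζ1) d) (lnN (-(Real.pi / 2 - ζ2)) d))
          (cE η1 η2 (lnU η1) (lnD η2) ∪
          cE ζ1 ζ2 (lnN (Real.pi / 2 - ζ1) d) (lnN (-(Real.pi / 2 - ζ2)) d)) := by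
      funext t
      rw [← EAr_mv (Mp F c) (Mm F c) g t, hF', hE, h9]
    rw [h8, hLe]
    exact h6
  · rintro ⟨g, α, α', θ, θ', d, a, a1, a2, a1', a2', t1, t2, t1', t2', d0, tt, p1, p2, hLe, hF, hE⟩
    have h5 := hcard g
    rw [hF] at h5
    obtain ⟨n1, n2, n3, n4, n5, n6⟩ := card4_ne h5
    have hF' := image_Mp hT.ne g
    rw [hF, hE] at hF'
    have h6 := h4 α α' θ θ' d a a1 a2 a1' a2' t1 t2 t1' t2' d0 tt p1 p2
    refine ⟨by rw [card_Mm F c g, hE, Finset.card_singleton], ?_⟩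
    have h9 : ({lnU α, lnD 0, lnN (Real.pi / 2 - α') d, lnN (Real.pi / 2 + (θ - θ') / 2) a} :
        Finset HP) \ {lnD 0}
        = {lnU α, lnN (Real.pi / 2 - α') d, lnN (Real.pi / 2 + (θ - θ') / 2) a} :=
      sd4 n1 n4 n5
    have h8 : EAr (Mp F c) (Mm F c) = EAr
        {lnU α, lnN (Real.pi / 2 - α') d, lnN (Real.pi / 2 + (θ - θ') / 2) a} {lnD 0} := by
      funext t
      rw [← EAr_mv (Mp F c) (Mm F c) g t, hF', hE, h9]
    rw [h8, hLe]
    exact h6

end Pool.Agent.XQ.H72
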