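import Pool.Agent.Helper16_XQ.StmtD
import Pool.Agent.Helper35_AEU.Geo

/-! XQ: module ITG, germs of the kinds of triples -/

set_option autoImplicit false

namespace Pool.Agent.XQ.H72

open MeasureTheory Complex Filter Topology ProbabilityTheory Pool.Agent.H16Iso Pool.Agent.H62T
open Pool.Agent.H16F (Sublin ind)
open Pool.Agent.AEU Pool.Agent.AEU.H35

/-- acute triangles, no condition on the angles -/
theorem small_DX (hG : GermDXStmt) {S : Finset HP} {L : ℝ} (hc : S.card = 3)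
    (hu : ∀ s ∈ S, ‖s.1‖ = 1) (ha : Acute S) (hpos : 0 < ell S)
    (halt : ∀ i j q, S = {i, j, q} → L / 2 < q.2 - ip q.1 (vx i j)) :
    Small L fun κ => Lap (EZs S) κ - germD (ell S) κ := by
  classical
  obtain ⟨a, b, c, rfl, hab, hac, hbc, k1, k2, k3, hl⟩ := acute_order hc hu ha hpos
  have ua := hu a (by simp)
  have ub := hu b (by simp)
  have uc := hu c (by simp)
  have hD : 0 < D0 a b c := by linarith only [hpos, hl]
  have a1 : L / 2 < c.2 - ip c.1 (vx a b) := halt a b c rfl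
  have a2 : L / 2 < a.2 - ip a.1 (vx b c) := halt b c a (cyc123 a b c)
  have a3 : L / 2 < b.2 - ip b.1 (vx c a) := halt c a b (by rw [cyc123 a b c, cyc123 b c a])
  have d1 := D0_vx c k1.ne'
  have d2 := D0_vx a k2.ne'
  have d3 := D0_vx b k3.ne'
  rw [D0_cyc] at d2
  rw [D0_cyc, D0_cyc] at d3
  have h := hG a.1 b.1 c.1 (D0 a b c) L ua ub uc k1 k2 k3 (ha a (by simp) b (by simp) hab)
    (ha b (by simp) c (by simp) hbc) (ha c (by simp) a (by simp) hac.symm)
    hD (by nlinarith only [d1, k1, a1]) (by nlinarith only [d2, k2, a2]) (by nlinarith only [d3, k3, a3])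
  rw [EZs_eq hab hac hbc hD, hl]
  exact h

lemma good_ok {α η : ℝ} (h : GoodB α η) : OkB (α, η) := by
  rcases h.or with ⟨h1, h2, h3, h4⟩ | ⟨h1, h2, h3⟩
  · exact Or.inl ⟨h1, h2, h.η0, h.ηα, h3, h4⟩
  · exact Or.inr ⟨h1, h2, h3⟩

lemma good_flip {α η : ℝ} (h : GoodB α η) : GoodB α (α - η) := by
  refine ⟨by linarith [h.ηα], by linarith [h.η0], ?_⟩
  rcases h.or with ⟨h1, h2, h3, h4⟩ | ⟨h1, h2, h3⟩
  · exact Or.inl ⟨h1, h2, h4, by rw [sub_sub_cancel]; exact h3⟩
  · exact Or.inr ⟨h1, h3, by rw [sub_sub_cancel]; exact h2⟩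

lemma good_pi {α η : ℝ} (h : GoodB α η) : α < Real.pi := by
  have hp := Real.pi_pos
  rcases h.or with ⟨h1, h2, h3, h4⟩ | ⟨h1, h2, h3⟩ <;> linarith only [h2, h1, h3]

lemma germB_symm (d α η : ℝ) (hα : α ≠ 0) : germB d α (α - η) = germB d α η := by
  funext κ
  unfold germB H12.TB H12.Ceta
  have h : Real.cos (2 * (Real.pi / α) * (α - η)) = Real.cos (2 * (Real.pi / α) * η) := by
    have h1 : 2 * (Real.pi / α) * (α - η) = 2 * Real.pi - 2 * (Real.pi / α) * η := by
      field_simp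
    rw [h1, Real.cos_two_pi_sub]
  rw [h]

/-- KA -/
lemma itg_A (hG : GermAStmt) {S : Finset HP} {L c c' : ℝ} (hL : 0 < L) (h0 : KA S L c c') :
    ∃ β β' : ℝ, OkA (β, β') ∧ c = Real.cos β ∧ c' = Real.cos β' ∧
      Small L fun κ => Lap (EZs S) κ - germA (L / 2) β β' κ := by
  classical
  obtain ⟨i, j, k, rfl, hcard, h⟩ := h0
  have c1 : Real.cos (Real.arccos c) = c := Real.cos_arccos (by linarith [h.pos]) h.lt.le
  have c2 : Real.cos (Real.arccos c') = c' := Real.cos_arccos (by linarith [h.pos']) h.lt'.le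
  refine ⟨Real.arccos c, Real.arccos c', ⟨Real.arccos_pos.2 h.lt,
    Real.arccos_lt_pi_div_two.2 h.pos, Real.arccos_pos.2 h.lt',
    Real.arccos_lt_pi_div_two.2 h.pos'⟩, c1.symm, c2.symm, ?_⟩
  rcases lt_trichotomy (dt i.1 j.1) 0 with h1 | h1 | h1
  · have h2 : dt j.1 k.1 < 0 := by
      by_contra hcon
      push Not at hcon
      have := mul_nonpos_of_nonpos_of_nonneg h1.le hcon
      linarith [h.or]
    have h3 := small_A_or hG hL (by rw [rev123]; exact hcard) (isA_rev h)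
      (by rw [dt_comm']; linarith) (by rw [dt_comm']; linarith)
    rw [rev123, germA_comm]
    exact h3
  · have := h.or
    rw [h1, zero_mul] at this
    exact absurd this (lt_irrefl _)
  · have h2 : 0 < dt j.1 k.1 := by
      by_contra hcon
      push Not at hcon
      have := mul_nonpos_of_nonneg_of_nonpos h1.le hcon
      linarith [h.or]
    exact small_A_or hG hL hcard h h1 h2

/-- KB -/
lemma itg_B (hG : GermBStmt) {S : Finset HP} {L c a b : ℝ} (hL : 0 < L) (h0 : KB S L c a b) :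
    ∃ α η : ℝ, OkB (α, η) ∧ 0 < η ∧ η < α ∧ α < Real.pi ∧
      c = -Real.cos α ∧ a = -Real.sin η ∧ b = -Real.sin (α - η) ∧
      Small L fun κ => Lap (EZs S) κ - germB (L / 2) α η κ := by
  classical
  obtain ⟨i, j, q, rfl, hcard, h, hc⟩ := h0
  rcases lt_or_gt_of_ne (isB_dt h) with h1 | h1
  · obtain ⟨α, η, g1, g2, g3, g4, g5⟩ := small_B_or hG hL (by rw [swap12]; exact hcard)
      (isB_swap h) hc (by rw [dt_comm']; linarith)
    rw [swap12] at g5
    exact ⟨α, η, good_ok g1, g1.η0, g1.ηα, good_pi g1, g2, g3, g4, g5⟩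
  · obtain ⟨α, η, g1, g2, g3, g4, g5⟩ := small_B_or hG hL hcard h hc h1
    have g6 := good_flip g1
    refine ⟨α, α - η, good_ok g6, g6.η0, g6.ηα, good_pi g1, g2, g4, ?_, ?_⟩
    · rw [sub_sub_cancel]; exact g3
    · rw [germB_symm _ _ _ g1.pos.ne']; exact g5

/-- KBa -/
lemma itg_Ba (hG : GermB'Stmt) {S : Finset HP} {L c a b : ℝ} (hL : 0 < L) (h0 : KBa S L c a b) :
    ∃ α η : ℝ, OkB (α, η) ∧ 0 < η ∧ η < α ∧ α < Real.pi ∧
      c = -Real.cos α ∧ a = -Real.sin η ∧ b = -Real.sin (α - η) ∧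
      Small L fun κ => Lap (EZs S) κ - (germB (L / 2) α η κ + germD (ell S) κ) := by
  classical
  obtain ⟨i, j, q, rfl, hcard, h, hc, hac, -, -, hb, ha⟩ := h0
  rcases lt_or_gt_of_ne (isB_dt h) with h1 | h1
  · obtain ⟨α, η, g1, g2, g3, g4, g5⟩ := small_B'_or hG hL (by rw [swap12]; exact hcard)
      (isB_swap h) (by rw [swap12]; exact hac) ha hb (by rw [dt_comm']; linarith)
    rw [swap12] at g5
    exact ⟨α, η, good_ok g1, g1.η0, g1.ηα, good_pi g1, g2, g3, g4, g5⟩
  · obtain ⟨α, η, g1, g2, g3, g4, g5⟩ := small_B'_or hG hL hcard h hac hb ha h1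
    have g6 := good_flip g1
    refine ⟨α, α - η, good_ok g6, g6.η0, g6.ηα, good_pi g1, g2, g4, ?_, ?_⟩
    · rw [sub_sub_cancel]; exact g3
    · rw [germB_symm _ _ _ g1.pos.ne']; exact g5

/-- KBr, oriented -/
lemma itg_Br_or (hG : GermBrStmt) {i j q : HP} {L a b : ℝ} (hL : 0 < L)
    (hcard : ({i, j, q} : Finset HP).card = 3) (h : IsB i j q L 0 a b) (h1 : 0 < dt i.1 j.1) :
    Small L fun κ => Lap (EZs {i, j, q}) κ + 1 / 2 * Real.exp (-(L * κ)) := by
  classical
  have hp := Real.pi_pos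
  obtain ⟨hij, hiq, hjq⟩ := card3_ne hcard
  obtain ⟨α, η, n0, n1, n2, c1, s1, s2, s3, ei, eq⟩ := shapeB h.ui h.uj h.uq h1
    (by rw [h.iq]; exact h.nega) (by rw [h.jq]; exact h.negb)
  rw [h.ij, neg_zero] at c1
  have hα : α = Real.pi / 2 := by
    have h2 := Real.arccos_cos (x := α) (by linarith) n2.le
    rw [c1, Real.arccos_zero] at h2
    exact h2.symm
  rw [hα] at s1 n1 ei
  rw [Real.sin_pi_div_two] at s1
  have hD1 : D0 i j q = L / 2 := by rw [D0_vx q h1.ne', h.len, ← s1, one_mul]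
  have hD : 0 < D0 i j q := by rw [hD1]; positivity
  have hg := hG j.1 η (L / 2) h.uj n0 n1 (by linarith only [hL])
  have e1 : (-((Real.pi : ℂ) - ((Real.pi / 2 : ℝ) : ℂ))) = -((Real.pi : ℂ) / 2) := by
    push_cast; ring
  rw [e1] at ei
  rw [← ei, ← eq, ← hD1] at hg
  rw [EZs_eq hij hiq hjq hD]
  have e2 : 2 * D0 i j q = L := by rw [hD1]; ring
  rw [e2] at hg
  exact hg

/-- KBr -/
lemma itg_Br (hG : GermBrStmt) {S : Finset HP} {L : ℝ} (hL : 0 < L) (h0 : ∃ a b, KBr S L a b) :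
    Small L fun κ => Lap (EZs S) κ + 1 / 2 * Real.exp (-(L * κ)) := by
  classical
  obtain ⟨a, b, i, j, q, rfl, hcard, h⟩ := h0
  rcases lt_or_gt_of_ne (isB_dt h) with h1 | h1
  · have := itg_Br_or hG hL (by rw [swap12]; exact hcard) (isB_swap h) (by rw [dt_comm']; linarith)
    rw [swap12] at this
    exact this
  · exact itg_Br_or hG hL hcard h h1

/-- reflection -/
lemma EZ_conj (a b c : ℂ) (D t : ℝ) :
    EZ ((starRingEnd ℂ) c) ((starRingEnd ℂ) b) ((starRingEnd ℂ) a) D t = EZ a b c D t := by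
  obtain ⟨G, hG, hGω⟩ := law_iso conjLIE
  have hm : Measurable fun ω : Sp => ZZ a b c D (fun u => Real.sqrt t * hs ω u) := by
    unfold ZZ DD
    have h1 := momS.1 a
    have h2 := momS.1 b
    have h3 := momS.1 c
    fun_prop
  unfold EZ
  conv_rhs => rw [← hG.map_eq]
  rw [integral_map hG.measurable.aemeasurable hm.aestronglyMeasurable]
  refine integral_congr_ae (Eventually.of_forall fun ω => ?_)
  simp only
  have dc : ∀ x y : ℂ, dt ((starRingEnd ℂ) x) ((starRingEnd ℂ) y) = dt y x := by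
    intro x y
    unfold dt
    simp only [Complex.conj_re, Complex.conj_im]
    ring
  unfold ZZ DD pr
  simp only [hGω, conjLIE_apply, dc]
  ring_nf

/-- the length of the edge gives the value of `D0` -/
lemma D0_edge {i j k : HP} {L : ℝ} (uj : ‖j.1‖ = 1)
    (h1 : 0 < dt i.1 j.1) (h2 : 0 < dt j.1 k.1) (hlen : eA i j k = L)
    (hin : ip k.1 (vx i j) < k.2) : D0 i j k = dt i.1 j.1 * dt j.1 k.1 * (L / 2) := by
  have hD1 := D0_vx k h1.ne'
  have e1 : ip j.1 (vx j k - vx i j) = 0 := by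
    have x1 := ip_vx_right h1.ne'
    have x2 := ip_vx_left h2.ne'
    unfold ip at x1 x2 ⊢
    simp only [Complex.sub_re, Complex.sub_im]
    linarith
  have e2 : ip k.1 (vx j k - vx i j) = k.2 - ip k.1 (vx i j) := by
    have x1 := ip_vx_right h2.ne'
    unfold ip at x1 ⊢
    simp only [Complex.sub_re, Complex.sub_im]
    linarith
  obtain ⟨y, hy⟩ : ∃ y, y = vx j k - vx i j := ⟨_, rfl⟩
  rw [← hy] at e1 e2
  obtain ⟨τ, hτ⟩ : ∃ τ, τ = dt j.1 y := ⟨_, rfl⟩
  have uj := unit_sq uj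
  have yr : y.re = -τ * j.1.im := by
    rw [hτ]; unfold dt; unfold ip at e1
    linear_combination (-y.re) * uj + j.1.re * e1
  have yi : y.im = τ * j.1.re := by
    rw [hτ]; unfold dt; unfold ip at e1
    linear_combination (-y.im) * uj + j.1.im * e1
  have e3 : ip k.1 y = τ * dt j.1 k.1 := by
    unfold ip dt; rw [yr, yi]; ring
  have hτ0 : 0 < τ := by
    have x1 : 0 < τ * dt j.1 k.1 := by rw [← e3, e2]; linarith
    exact pos_of_mul_pos_left x1 h2.le
  have hn : ‖y‖ = τ := by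
    have x1 : ‖y‖ ^ 2 = τ ^ 2 := by
      rw [← Complex.normSq_eq_norm_sq, Complex.normSq_apply, yr, yi]
      linear_combination τ ^ 2 * uj
    exact (pow_left_inj₀ (norm_nonneg _) hτ0.le two_ne_zero).1 x1
  unfold eA at hlen
  rw [norm_sub_rev, ← hy, hn] at hlen
  rw [hD1, ← e2, e3, ← hlen]
  ring

/-- KAh -/
lemma itg_Ah (hG : GermAhStmt) {S : Finset HP} {L c : ℝ} (hL : 0 < L) (h0 : KAh S L c) :
    ∃ α : ℝ, Real.pi / 2 < α ∧ α < Real.pi ∧ c = -Real.cos α ∧
      Small L fun κ => Lap (EZs S) κ - 1 / 2 * germB (L / 2) α 0 κ := by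
  classical
  have hp := Real.pi_pos
  obtain ⟨i, j, k, rfl, hcard, ui, uj, uk, hij, c0, c1, hjk, hor, hlen, hin1, hin2⟩ := h0
  obtain ⟨nij, nik, njk⟩ := card3_ne hcard
  obtain ⟨β, hβ⟩ : ∃ β, β = Real.arccos c := ⟨_, rfl⟩
  have cβ : Real.cos β = c := by rw [hβ]; exact Real.cos_arccos (by linarith only [c0]) c1.le
  have b1 : 0 < β := by rw [hβ]; exact Real.arccos_pos.2 c1
  have b2 : β < Real.pi / 2 := by rw [hβ]; exact Real.arccos_lt_pi_div_two.2 c0
  refine ⟨Real.pi - β, by linarith, by linarith, by rw [Real.cos_pi_sub, cβ, neg_neg], ?_⟩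
  have sq1 := ip_dt_sq ui uj
  have sq2 := ip_dt_sq uj uk
  rw [hij] at sq1
  rw [hjk] at sq2
  have sβ : Real.sin β ^ 2 = dt i.1 j.1 ^ 2 := by
    have := Real.sin_sq_add_cos_sq β
    rw [cβ] at this
    linarith only [sq1, this]
  have sβ0 : 0 < Real.sin β := Real.sin_pos_of_pos_of_lt_pi b1 (by linarith)
  rcases lt_trichotomy (dt i.1 j.1) 0 with h1 | h1 | h1
  · have h2 : dt j.1 k.1 < 0 := by
      by_contra hcon
      push Not at hcon
      have := mul_nonpos_of_nonpos_of_nonneg h1.le hcon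
      linarith
    have s1 : dt j.1 i.1 = Real.sin β := by
      rw [dt_comm']
      have : Real.sin β ^ 2 = (-dt i.1 j.1) ^ 2 := by rw [sβ]; ring
      exact ((pow_left_inj₀ sβ0.le (by linarith) two_ne_zero).1 this).symm
    have s2 : dt j.1 k.1 = -1 := by nlinarith only [hor, sq2, h1]
    have h1' : 0 < dt j.1 i.1 := by rw [dt_comm']; linarith
    have h2' : 0 < dt k.1 j.1 := by rw [dt_comm']; linarith
    have hD1 := D0_edge (i := k) (j := j) (k := i) (L := L) uj h2' h1'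
      (by unfold eA at hlen ⊢; rw [vx_comm' k j, vx_comm' j i, norm_sub_rev]; exact hlen)
      (by rw [vx_comm' k j]; exact hin2)
    have s2' : dt k.1 j.1 = 1 := by rw [dt_comm', s2, neg_neg]
    rw [s2', s1, one_mul] at hD1
    have hD : 0 < D0 k j i := by rw [hD1]; positivity
    have ei : i.1 = j.1 * exp ((β : ℂ) * I) :=
      rot_eq uj (w := i.1) (θ := β) (by rw [cβ, ip_comm', hij]) s1.symm
    have ek : k.1 = j.1 * exp (((-(Real.pi / 2) : ℝ) : ℂ) * I) :=
      rot_eq uj (w := k.1) (θ := -(Real.pi / 2))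
        (by rw [Real.cos_neg, Real.cos_pi_div_two, hjk])
        (by rw [Real.sin_neg, Real.sin_pi_div_two, s2])
    have hg := hG ((starRingEnd ℂ) j.1) β (L / 2) (by rw [Complex.norm_conj]; exact uj) b1 b2
      (by linarith)
    have e1 : (starRingEnd ℂ) j.1 * exp (-(β : ℂ) * I) = (starRingEnd ℂ) i.1 := by
      rw [ei, map_mul, ← Complex.exp_conj, map_mul, Complex.conj_ofReal, Complex.conj_I]
      congr 2; ring
    have e2 : (starRingEnd ℂ) j.1 * I = (starRingEnd ℂ) k.1 := by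
      rw [ek, map_mul, ← Complex.exp_conj, map_mul, Complex.conj_ofReal, Complex.conj_I]
      have : ((-(Real.pi / 2) : ℝ) : ℂ) * -I = (Real.pi : ℂ) / 2 * I := by push_cast; ring
      rw [this, Complex.exp_pi_div_two_mul_I]
    have e3 : (fun t => EZ ((starRingEnd ℂ) i.1) ((starRingEnd ℂ) j.1) ((starRingEnd ℂ) k.1)
        (Real.sin β * (L / 2)) t) = EZs {i, j, k} := by
      funext t
      rw [EZ_conj, rev123 i j k, EZs_eq njk.symm nik.symm nij.symm hD, hD1]
    rw [e1, e2, show 2 * (L / 2) = L by ring] at hg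
    rw [← e3]
    exact hg
  · rw [h1, zero_mul] at hor
    exact absurd hor (lt_irrefl _)
  · have h2 : 0 < dt j.1 k.1 := by
      by_contra hcon
      push Not at hcon
      have := mul_nonpos_of_nonneg_of_nonpos h1.le hcon
      linarith
    have s1 : dt i.1 j.1 = Real.sin β :=
      ((pow_left_inj₀ sβ0.le h1.le two_ne_zero).1 sβ).symm
    have s2 : dt j.1 k.1 = 1 := by nlinarith only [hor, sq2, h1]
    have hD1 := D0_edge uj h1 h2 hlen hin1
    rw [s2, s1, mul_one] at hD1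
    have hD : 0 < D0 i j k := by rw [hD1]; positivity
    have ei : i.1 = j.1 * exp (-(β : ℂ) * I) := by
      have := rot_eq uj (w := i.1) (θ := -β)
        (by rw [Real.cos_neg, cβ, ip_comm', hij]) (by rw [Real.sin_neg, ← s1, dt_comm' j.1 i.1])
      rw [this]; push_cast; rfl
    have ek : k.1 = j.1 * I := by
      have := rot_eq uj (w := k.1) (θ := Real.pi / 2)
        (by rw [Real.cos_pi_div_two, hjk]) (by rw [Real.sin_pi_div_two, s2])
      rw [this]
      have e : ((Real.pi / 2 : ℝ) : ℂ) * I = (Real.pi : ℂ) / 2 * I := by push_cast; ring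
      rw [e, Complex.exp_pi_div_two_mul_I]
    have hg := hG j.1 β (L / 2) uj b1 b2 (by linarith)
    rw [← ei, ← ek, ← hD1, show 2 * (L / 2) = L by ring] at hg
    rw [EZs_eq nij nik njk hD]
    exact hg

/-- KIso, oriented -/
lemma itg_Iso_or (hG : GermIsoStmt) {i j q : HP} {L c a : ℝ} (hL : 0 < L)
    (hcard : ({i, j, q} : Finset HP).card = 3) (h : IsB i j q L c a c)
    (hac : Acute {i, j, q}) (ha : a < c) (h1 : 0 < dt i.1 j.1) (h2 : 0 < dt j.1 q.1)
    (h3 : 0 < dt q.1 i.1) : ∃ c κ0 : ℝ, 0 < c ∧ 0 < κ0 ∧ ∀ κ : ℝ, κ0 ≤ κ →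
      c * κ ^ (1 / 2 : ℝ) * Real.exp (-(L * κ)) ≤ Lap (EZs {i, j, q}) κ
        - germD (ell {i, j, q}) κ := by
  classical
  obtain ⟨hij, hiq, hjq⟩ := card3_ne hcard
  have k1 := hac i (by simp) j (by simp) hij
  have k2 := hac j (by simp) q (by simp) hjq
  have k3 := hac q (by simp) i (by simp) hiq.symm
  have q1 := ip_dt_sq h.ui h.uj
  have q2 := ip_dt_sq h.uj h.uq
  have q3 := ip_dt_sq h.ui h.uq
  have e1 := h.ij
  have e2 := h.jq
  have e3 := h.iq
  rw [e1] at q1 k1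
  rw [e2] at q2 k2
  rw [e3] at q3
  have a0 := h.nega
  have hD1 : D0 i j q = dt i.1 j.1 * (L / 2) := by rw [D0_vx q h1.ne', h.len]
  have hD : 0 < D0 i j q := by rw [hD1]; positivity
  have d1 : dt i.1 j.1 = dt j.1 q.1 := by nlinarith only [q1, q2, h1, h2]
  have d2 : dt q.1 i.1 < dt i.1 j.1 := by
    have x1 : dt i.1 q.1 = -dt q.1 i.1 := dt_comm' _ _
    rw [x1] at q3
    nlinarith only [q1, q3, ha, k1, h1]
  have hl : ell {i, j, q} = 2 * D0 i j q := by
    rw [ell_eq hij hiq hjq, abs_of_pos h1, abs_of_pos h2, abs_of_pos h3]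
    unfold D0; ring
  obtain ⟨c', κ0, hc', hκ0, hh⟩ := hG i.1 j.1 q.1 (D0 i j q) h.ui h.uj h.uq h1 h2 h3
    (by rw [e1]; exact k1) (by rw [e2]; exact k2) k3 hD d1 d2
  refine ⟨c', κ0, hc', hκ0, fun κ hκ => ?_⟩
  have h4 := hh κ hκ
  have e4 : 2 * D0 i j q / dt i.1 j.1 = L := by
    rw [hD1]; field_simp
  rw [e4] at h4
  rw [EZs_eq hij hiq hjq hD, hl]
  exact h4

/-- KIso -/
lemma itg_Iso (hG : GermIsoStmt) {S : Finset HP} {L : ℝ} (hL : 0 < L) (h0 : KIso S L) :
    ∃ c κ0 : ℝ, 0 < c ∧ 0 < κ0 ∧ ∀ κ : ℝ, κ0 ≤ κ →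
      c * κ ^ (1 / 2 : ℝ) * Real.exp (-(L * κ)) ≤ Lap (EZs S) κ - germD (ell S) κ := by
  classical
  obtain ⟨i, j, q, c, a, rfl, hcard, h, hc, hac, hpos, -, ha⟩ := h0
  obtain ⟨hij, hiq, hjq⟩ := card3_ne hcard
  have k1 := hac i (by simp) j (by simp) hij
  have k2 := hac j (by simp) q (by simp) hjq
  have k3 := hac q (by simp) i (by simp) hiq.symm
  rcases acute_signs h.ui h.uj h.uq k1 k2 k3 with ⟨x1, x2, x3⟩ | ⟨x1, x2, x3⟩
  · exact itg_Iso_or hG hL hcard h hac ha x1 x2 x3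
  · -- the reversed triple
    have q1 := ip_dt_sq h.ui h.uj
    have q2 := ip_dt_sq h.uj h.uq
    rw [h.ij] at q1
    rw [h.jq] at q2
    have d1 : dt i.1 j.1 = dt j.1 q.1 := by nlinarith only [q1, q2, x1, x2]
    have x2' : 0 < dt q.1 j.1 := by rw [dt_comm']; linarith
    have x1' : 0 < dt j.1 i.1 := by rw [dt_comm']; linarith
    have x3' : 0 < dt i.1 q.1 := by rw [dt_comm']; linarith
    have hB : IsB q j i L c a c :=
      { ui := h.uq
        uj := h.uj
        uq := h.ui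
        ij := by rw [ip_comm']; exact h.jq
        iq := by rw [ip_comm']; exact h.iq
        jq := by rw [ip_comm']; exact h.ij
        lt := h.lt
        lta := h.lta
        ltb := h.ltb
        nega := h.nega
        negb := h.negb
        len := by
          have y1 := D0_vx (i := j) (j := i) q x1'.ne'
          have y2 := D0_vx (i := q) (j := j) i x2'.ne'
          have y3 : D0 q j i = D0 j i q := by rw [D0_cyc, D0_cyc]
          have y4 : dt q.1 j.1 = dt j.1 i.1 := by rw [dt_comm' q.1 j.1, dt_comm' j.1 i.1, d1]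
          rw [y3, y1, y4, vx_comm' j i, h.len] at y2
          exact (mul_left_cancel₀ x1'.ne' y2).symm }
    have := itg_Iso_or hG hL (by rw [rev123]; exact hcard) hB
      (by rw [rev123]; exact hac) ha x2' x1' x3'
    rw [rev123] at this
    exact this

/-- module ITG -/
theorem itg : ItgStatement := by
  intro hA hB hB' hDX hIso hAh hBr S L hL
  refine ⟨fun h => small_DX hDX h.card h.unit h.acute h.pos h.alt, fun h => ?_,
    fun c c' h => itg_A hA hL h, fun c h => itg_Ah hAh hL h, fun c a b h => itg_B hB hL h,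
    fun h => itg_Br hBr hL h, fun c a b h => itg_Ba hB' hL h, fun h => itg_Iso hIso hL h⟩
  have h1 := small_DX hDX h.card h.unit h.acute (by rw [h.len]; exact hL) h.alt
  rw [h.len] at h1
  refine small_congr h1 (Eventually.of_forall fun κ => ?_)
  unfold germD
  rw [sub_neg_eq_add]

end Pool.Agent.XQ.H72
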